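import Mathlib
import Pool.Agent.Mg.Fc0911c.G159ae3
import Pool.Agent.MP_c0911c_al.SectionDefs

section

namespace Pool.Agent.MP_c0911c_al

open MvPolynomial

theorem eq_zero_of_coprime_smul {M : Type*} [AddCommGroup M] {p N : ℕ} {d : ℤ}
    (hd : IsCoprime d (p : ℤ)) {m : M} (h1 : d • m = 0) (h2 : p ^ N • m = 0) : m = 0 := by
  obtain ⟨a, b, hab⟩ := (hd.pow_right (n := N))
  have h3 : ((p : ℤ) ^ N) • m = 0 := by rw [← Nat.cast_pow, natCast_zsmul, h2]
  calc m = (a * d + b * (p : ℤ) ^ N) • m := by rw [hab, one_smul]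
    _ = 0 := by rw [add_smul, mul_smul, mul_smul, h1, h3, smul_zero, smul_zero, add_zero]

theorem vandermonde_aux {M : Type*} [AddCommGroup M] {p N : ℕ} (hp : p.Prime) (m : ℕ → M)
    (ht : ∀ i, p ^ N • m i = 0) (h : ∀ μ : ℤ, ∑ i ∈ Finset.range p, μ ^ i • m i = 0) :
    ∀ i < p, m i = 0 := by
  intro k hk
  let V : Matrix (Fin p) (Fin p) ℤ := Matrix.vandermonde (fun i => ((i : ℕ) : ℤ))
  have hdet : IsCoprime V.det (p : ℤ) := by
    rw [Matrix.det_vandermonde]
    apply IsCoprime.prod_left
    intro i _
    apply IsCoprime.prod_left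
    intro j hj
    have hij : (i : ℕ) < j := (Finset.mem_Ioi.1 hj : i < j)
    rw [← Nat.cast_sub hij.le, Nat.isCoprime_iff_coprime]
    exact ((Nat.coprime_of_lt_prime (by omega) (by have := j.2; omega) hp)).symm
  refine eq_zero_of_coprime_smul hdet ?_ (ht k)
  have h1 : ∀ i : Fin p, ∑ j : Fin p, V i j • m j = 0 := by
    intro i
    have := h ((i : ℕ) : ℤ)
    rw [Finset.sum_range] at this
    simpa [V, Matrix.vandermonde_apply] using this
  have h2 : ∑ i : Fin p, V.adjugate ⟨k, hk⟩ i • ∑ j : Fin p, V i j • m j = 0 := by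
    simp [h1]
  simp only [Finset.smul_sum, ← mul_smul] at h2
  rw [Finset.sum_comm] at h2
  simp only [← Finset.sum_smul] at h2
  have h3 : ∀ j : Fin p, ∑ i : Fin p, V.adjugate ⟨k, hk⟩ i * V i j =
      if (⟨k, hk⟩ : Fin p) = j then V.det else 0 := by
    intro j
    have := congrFun (congrFun (Matrix.adjugate_mul V) ⟨k, hk⟩) j
    rw [Matrix.mul_apply] at this
    rw [this, Matrix.smul_apply, Matrix.one_apply]
    split_ifs <;> simp
  simpa [h3] using h2

theorem mv_fin_eq_zero {A : Type*} [CommRing A] {p N : ℕ} (hp : p.Prime) (n : ℕ) :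
    ∀ Q : MvPolynomial (Fin n) A, (∀ α, p ^ N • coeff α Q = 0) →
      (∀ α ∈ Q.support, ∀ i, α i < p) →
      (∀ lam : Fin n → ℤ, eval (fun i => (lam i : A)) Q = 0) → Q = 0 := by
  induction n with
  | zero =>
    intro Q _ _ h
    have := h (fun _ => 0)
    rw [Q.eq_C_of_isEmpty] at this ⊢
    rw [eval_C] at this
    rw [this, C_0]
  | succ n ih =>
    intro Q ht hs h
    have hdeg : (finSuccEquiv A n Q).natDegree < p := by
      rw [natDegree_finSuccEquiv, degreeOf_lt_iff hp.pos]
      exact fun α hα => hs α hα 0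
    have key : ∀ i, (finSuccEquiv A n Q).coeff i = 0 := by
      intro i
      by_cases hi : i < p
      swap
      · exact Polynomial.coeff_eq_zero_of_natDegree_lt (by omega)
      apply ih
      · intro α
        rw [finSuccEquiv_coeff_coeff]
        exact ht _
      · intro α hα j
        rw [mem_support_coeff_finSuccEquiv] at hα
        simpa using hs _ hα j.succ
      · intro lam
        refine vandermonde_aux (N := N) hp
          (fun i => eval (fun i => (lam i : A)) ((finSuccEquiv A n Q).coeff i)) ?_ ?_ i hi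
        · intro j
          rw [← map_nsmul]
          have : p ^ N • (finSuccEquiv A n Q).coeff j = 0 := by
            ext α
            rw [coeff_smul, finSuccEquiv_coeff_coeff, ht, coeff_zero]
          rw [this, map_zero]
        · intro μ
          have h1 := h (Fin.cons μ lam)
          have h2 : (fun i => ((Fin.cons μ lam : Fin (n + 1) → ℤ) i : A)) =
              Fin.cons (μ : A) (fun i => (lam i : A)) := by
            funext i
            refine Fin.cases ?_ (fun j => ?_) i <;> simp
          rw [h2, eval_eq_eval_mv_eval', Polynomial.eval_eq_sum_range'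
            (lt_of_le_of_lt Polynomial.natDegree_map_le hdeg)] at h1
          rw [← h1]
          refine Finset.sum_congr rfl fun j _ => ?_
          rw [Polynomial.coeff_map, zsmul_eq_mul, mul_comm]
          push_cast
          rfl
    have : finSuccEquiv A n Q = 0 := Polynomial.ext fun i => by rw [key, Polynomial.coeff_zero]
    exact (map_eq_zero_iff _ (finSuccEquiv A n).injective).1 this

theorem mv_eq_zero {A : Type*} [CommRing A] {p N : ℕ} (hp : p.Prime)
    (Q : MvPolynomial ℕ A) (ht : ∀ α, p ^ N • coeff α Q = 0)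
    (hs : ∀ α ∈ Q.support, ∀ i, α i < p)
    (h : ∀ lam : ℕ → ℤ, eval (fun i => (lam i : A)) Q = 0) : Q = 0 := by
  classical
  obtain ⟨n, f, hf, q, rfl⟩ := exists_fin_rename Q
  have : q = 0 := by
    apply mv_fin_eq_zero (N := N) hp n q
    · intro α
      rw [← coeff_rename_mapDomain f hf]
      exact ht _
    · intro α hα i
      have := hs (Finsupp.mapDomain f α) (by
        rw [mem_support_iff, coeff_rename_mapDomain f hf]
        exact mem_support_iff.1 hα) (f i)
      rwa [Finsupp.mapDomain_apply hf] at this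
    · intro lam
      have := h (Function.extend f lam 0)
      rw [eval_rename] at this
      rw [← this]
      congr 2
      funext i
      simp [hf.extend_apply]
  rw [this, map_zero]

theorem coeff_mul_pow_eq_zero {A : Type*} [CommRing A] {p N : ℕ} (hp : p.Prime)
    (P : MvPolynomial ℕ A) (t : A) (htp : t ^ p = 0)
    (ht : ∀ α : ℕ →₀ ℕ, p ^ N • (coeff α P * t ^ α.degree) = 0)
    (h : ∀ lam : ℕ → ℤ, eval (fun i => (lam i : A) * t) P = 0) :
    ∀ α : ℕ →₀ ℕ, coeff α P * t ^ α.degree = 0 := by
  classical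
  let Q : MvPolynomial ℕ A := ∑ α ∈ P.support, monomial α (coeff α P * t ^ α.degree)
  have hQ : ∀ α, coeff α Q = coeff α P * t ^ α.degree := by
    intro α
    simp only [Q, coeff_sum, coeff_monomial]
    rw [Finset.sum_ite_eq']
    split_ifs with hα
    · rfl
    · rw [notMem_support_iff.1 hα, zero_mul]
  have : Q = 0 := by
    apply mv_eq_zero (N := N) hp
    · intro α; rw [hQ]; exact ht α
    · intro α hα i
      by_contra hi
      rw [mem_support_iff, hQ] at hα
      apply hα
      have : p ≤ α.degree := (not_lt.1 hi).trans (Finsupp.le_degree i α)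
      rw [pow_eq_zero_of_le this htp, mul_zero]
    · intro lam
      rw [← h lam, eval_eq (f := P)]
      simp only [Q, map_sum, eval_monomial]
      refine Finset.sum_congr rfl fun α _ => ?_
      rw [Finsupp.prod, mul_assoc]
      congr 1
      simp only [mul_pow, Finset.prod_mul_distrib, Finset.prod_pow_eq_pow_sum]
      rw [mul_comm, Finsupp.degree_apply]
  intro α
  rw [← hQ, this, coeff_zero]

theorem polarize {A : Type*} [CommRing A] {p N : ℕ} (hp : p.Prime) (J : Ideal A)
    (hJ : ∀ x ∈ J, p ^ N • x = 0) (j : ℕ) :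
    ∀ c : A, j < p → (∀ t ∈ J, c * t ^ j = 0) → ∀ x ∈ J ^ j, c * x = 0 := by
  induction j with
  | zero =>
    intro c _ h x _
    have := h 0 J.zero_mem
    rw [pow_zero, mul_one] at this
    rw [this, zero_mul]
  | succ j ih =>
    intro c hj h x hx
    have key : ∀ u ∈ J, ∀ t ∈ J, c * u * t ^ j = 0 := by
      intro u hu t ht
      have h1 := vandermonde_aux (N := N) hp
        (fun i => c * (u ^ i * t ^ (j + 1 - i) * ((j + 1).choose i : A))) (by
          intro i
          apply hJ
          apply J.mul_mem_left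
          apply J.mul_mem_right
          rcases Nat.eq_zero_or_pos i with rfl | hi
          · exact J.mul_mem_left _ (J.pow_mem_of_mem ht _ (by omega))
          · exact J.mul_mem_right _ (J.pow_mem_of_mem hu _ hi)) (by
          intro μ
          have h2 := h ((μ : A) * u + t) (J.add_mem (J.mul_mem_left _ hu) ht)
          rw [add_pow, Finset.mul_sum] at h2
          rw [← h2]
          symm
          apply Finset.sum_subset_zero_on_sdiff
          · exact Finset.range_subset_range.2 (by omega)
          · intro i hi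
            have : j + 1 < i := by
              have := (Finset.mem_sdiff.1 hi).2
              simp only [Finset.mem_range] at this
              omega
            simp [Nat.choose_eq_zero_of_lt this]
          · intro i _
            rw [zsmul_eq_mul]
            push_cast
            ring) 1 (by omega)
      simp only [pow_one, Nat.add_sub_cancel, Nat.choose_one_right] at h1
      refine eq_zero_of_coprime_smul (p := p) (N := N) (d := ((j + 1 : ℕ) : ℤ)) ?_ ?_ ?_
      · rw [Nat.isCoprime_iff_coprime]
        exact (Nat.coprime_of_lt_prime (by omega) hj hp).symm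
      · rw [← h1, zsmul_eq_mul]
        push_cast
        ring
      · exact hJ _ (J.mul_mem_right _ (J.mul_mem_left _ hu))
    rw [pow_succ'] at hx
    refine Submodule.mul_induction_on hx (fun u hu y hy => ?_) (fun y z hy hz => ?_)
    · rw [← mul_assoc]
      exact ih (c * u) (by omega) (key u hu) y hy
    · rw [mul_add, hy, hz, add_zero]

theorem eval_eq_zero_of_coeff {A : Type*} [CommRing A] (J : Ideal A) (P : MvPolynomial ℕ A)
    (h : ∀ α : ℕ →₀ ℕ, ∀ x ∈ J ^ α.degree, coeff α P * x = 0) (b : ℕ → A) (hb : ∀ i, b i ∈ J) :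
    eval b P = 0 := by
  rw [eval_eq]
  refine Finset.sum_eq_zero fun α _ => h α _ ?_
  rw [Finsupp.degree_apply, ← Finset.prod_pow_eq_pow_sum]
  exact Ideal.prod_mem_prod fun i _ => Ideal.pow_mem_pow (hb i) _

theorem pow_eq_bot_of_prod {A : Type*} [CommRing A] (J : Ideal A) (n : ℕ) :
    ∀ c : A, (∀ x : Fin n → A, (∀ i, x i ∈ J) → c * ∏ i, x i = 0) → ∀ y ∈ J ^ n, c * y = 0 := by
  induction n with
  | zero =>
    intro c h y _
    have := h (fun _ => 0) (fun _ => J.zero_mem)
    simp only [Finset.univ_eq_empty, Finset.prod_empty, mul_one] at this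
    rw [this, zero_mul]
  | succ n ih =>
    intro c h y hy
    rw [pow_succ'] at hy
    refine Submodule.mul_induction_on hy (fun u hu y hy => ?_) (fun y z hy hz => ?_)
    · rw [← mul_assoc]
      refine ih (c * u) (fun x hx => ?_) y hy
      have := h (Fin.cons u x) (fun i => Fin.cases hu hx i)
      rwa [Fin.prod_cons, ← mul_assoc] at this
    · rw [mul_add, hy, hz, add_zero]

theorem subring_eq_top {A : Type*} [CommRing A] (J : Ideal A) (hJ : IsNilpotent J)
    (B : Subring A) (h0 : ∀ a, ∃ b ∈ B, a - b ∈ J)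
    (h1 : ∀ y ∈ J, ∃ b ∈ B, b ∈ J ∧ y - b ∈ J ^ 2) : B = ⊤ := by
  have h2 : ∀ k, ∀ y ∈ J ^ k, ∃ b ∈ B, b ∈ J ^ k ∧ y - b ∈ J ^ (k + 1) := by
    intro k
    induction k with
    | zero =>
      intro y _
      obtain ⟨b, hb, hb2⟩ := h0 y
      exact ⟨b, hb, by simp, by simpa using hb2⟩
    | succ k ih =>
      intro y hy
      rw [pow_succ] at hy
      refine Submodule.mul_induction_on hy (fun y hy z hz => ?_) (fun y z hy hz => ?_)
      · obtain ⟨b, hb, hb1, hb2⟩ := ih y hy
        obtain ⟨c, hc, hc1, hc2⟩ := h1 z hz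
        refine ⟨b * c, B.mul_mem hb hc, pow_succ J k ▸ Ideal.mul_mem_mul hb1 hc1, ?_⟩
        have : y * z - b * c = b * (z - c) + (y - b) * z := by ring
        rw [this]
        apply Ideal.add_mem
        · rw [add_assoc, pow_add]; exact Ideal.mul_mem_mul hb1 hc2
        · rw [pow_succ]; exact Ideal.mul_mem_mul hb2 hz
      · obtain ⟨b, hb, hb1, hb2⟩ := hy
        obtain ⟨c, hc, hc1, hc2⟩ := hz
        refine ⟨b + c, B.add_mem hb hc, Ideal.add_mem _ hb1 hc1, ?_⟩
        have : y + z - (b + c) = (y - b) + (z - c) := by ring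
        rw [this]
        exact Ideal.add_mem _ hb2 hc2
  have h3 : ∀ k a, ∃ b ∈ B, a - b ∈ J ^ k := by
    intro k a
    induction k with
    | zero => exact ⟨0, B.zero_mem, by simp⟩
    | succ k ih =>
      obtain ⟨b, hb, hb2⟩ := ih
      obtain ⟨c, hc, -, hc2⟩ := h2 k _ hb2
      exact ⟨b + c, B.add_mem hb hc, by rwa [← sub_sub]⟩
  obtain ⟨n, hn⟩ := hJ
  rw [eq_top_iff]
  intro a _
  obtain ⟨b, hb, hb2⟩ := h3 n a
  rw [hn] at hb2
  rwa [sub_eq_zero.1 (Ideal.mem_bot.1 hb2)]

end Pool.Agent.MP_c0911c_al

end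

section

namespace Pool.Agent.MP_c0911c_al

universe u v

open IsLocalRing

/-- `f` vanishes on all proper subrings. -/
def VanProper (R : Type u) [NonUnitalRing R] (f : RingTerm) : Prop :=
  ∀ S : NonUnitalSubring R, S ≠ ⊤ → ∀ v : ℕ → R, (∀ i, v i ∈ S) → f.eval v = 0

theorem isSectionCritical_iff (R : Type u) [NonUnitalRing R] :
    IsSectionCritical R ↔ ∃ f, Witness R f ∧ VanProper R f := by
  constructor
  · rintro ⟨s, t, h1, h2⟩
    refine ⟨.add s (.neg t), ⟨fun I hI v => ?_, ?_⟩, fun S hS v hv => ?_⟩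
    · obtain ⟨a, ha, ha0⟩ := exists_ne_zero_of_ne_bot hI
      have := (satisfies_quot_iff _ s t).1 (h1 ⊤ (I.comap (NonUnitalSubringClass.subtype
        (⊤ : NonUnitalSubring R))) (Or.inr (ne_bot_of_mem (a := ⟨a, trivial⟩)
          ((TwoSidedIdeal.mem_comap _).2 ha) (fun h => ha0 (congrArg Subtype.val h)))))
        (fun i => ⟨v i, trivial⟩)
      rw [TwoSidedIdeal.mem_comap, map_sub, eval_map, eval_map] at this
      simpa [RingTerm.eval, sub_eq_add_neg] using this
    · simp only [SatisfiesIdentity, not_forall] at h2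
      obtain ⟨v, hv⟩ := h2
      exact ⟨v, by simpa [RingTerm.eval, ← sub_eq_add_neg, sub_eq_zero] using hv⟩
    · have := (satisfies_quot_iff _ s t).1 (h1 S ⊥ (Or.inl hS)) (fun i => ⟨v i, hv i⟩)
      rw [TwoSidedIdeal.mem_bot] at this
      have h3 := congrArg (NonUnitalSubringClass.subtype S) this
      rw [map_sub, eval_map, eval_map, map_zero] at h3
      simpa [RingTerm.eval, sub_eq_add_neg] using h3
  · rintro ⟨f, ⟨h1, v, hv⟩, h2⟩
    refine ⟨f, .zero, fun S I hSI => (satisfies_quot_iff I _ _).2 fun w => ?_, fun h => hv (h v)⟩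
    simp only [RingTerm.eval, sub_zero]
    have he : ((f.eval w : S) : R) = f.eval (fun i => (w i : R)) :=
      eval_map (NonUnitalSubringClass.subtype S) w f
    by_cases hS : S = ⊤
    · subst hS
      have hI : I ≠ ⊥ := hSI.resolve_left (fun h => h rfl)
      obtain ⟨a, ha, ha0⟩ := exists_ne_zero_of_ne_bot hI
      let e : R →ₙ+* (⊤ : NonUnitalSubring R) := (NonUnitalSubring.topEquiv (R := R)).symm
      have := h1 (I.comap e) (ne_bot_of_mem (a := (a : R)) ((TwoSidedIdeal.mem_comap _).2 ha)
        (fun h => ha0 (Subtype.ext h))) (fun i => (w i : R))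
      rw [TwoSidedIdeal.mem_comap, eval_map] at this
      exact this
    · have : f.eval w = 0 := Subtype.ext (he.trans (h2 S hS _ (fun i => (w i).2)))
      rw [this]
      exact I.zero_mem

theorem VanProper.map {R : Type u} {S : Type v} [NonUnitalRing R] [NonUnitalRing S]
    (φ : R ≃+* S) {f : RingTerm} (h : VanProper R f) : VanProper S f := by
  intro T hT v hv
  have h1 := h (T.comap (φ : R →ₙ+* S)) (by
    intro h2
    apply hT
    rw [eq_top_iff]
    intro x _
    have : φ.symm x ∈ T.comap (φ : R →ₙ+* S) := h2 ▸ trivial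
    simpa using this) (fun i => φ.symm (v i)) (fun i => by simpa using hv i)
  rw [← eval_map] at h1
  simpa using h1

/-- The product `x 0 * ... * x n` in a ring without identity. -/
def nprod {R : Type u} [NonUnitalCommRing R] : (n : ℕ) → (Fin (n + 1) → R) → R
  | 0, x => x 0
  | n + 1, x => x 0 * nprod n (fun i => x i.succ)

theorem map_nprod {R : Type u} {A : Type v} [NonUnitalCommRing R] [CommRing A]
    {F : Type*} [FunLike F R A] [NonUnitalRingHomClass F R A] (φ : F) (n : ℕ)
    (x : Fin (n + 1) → R) : φ (nprod n x) = ∏ i, φ (x i) := by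
  induction n with
  | zero => simp [nprod]
  | succ n ih => rw [nprod, map_mul, ih, Fin.prod_univ_succ (n := n + 1)]

theorem inr_nprod {R : Type u} [NonUnitalCommRing R] (n : ℕ) (x : Fin (n + 1) → R) :
    ((nprod n x : R) : Unitization ℤ R) = ∏ i, (x i : Unitization ℤ R) :=
  map_nprod (Unitization.inrNonUnitalAlgHom ℤ R) n x

theorem shift_eval {A : Type u} [CommRing A] (W : Subring A) (w : ℕ → W) (f : RingTerm)
    (b : ℕ → A) :
    MvPolynomial.eval b (MvPolynomial.map W.subtype
      (f.eval (fun i => MvPolynomial.C (w i) + MvPolynomial.X i))) =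
      f.eval (fun i => (w i : A) + b i) := by
  rw [eval_map, eval_map]
  simp

/-! ### Coefficient subring of a finite local ring -/

section Local

variable {S : Type u} [CommRing S] [Finite S] [IsLocalRing S] {p N : ℕ}

theorem p_pow_smul (hc : Nat.card S = p ^ N) (x : S) : p ^ N • x = 0 := by
  rw [← hc]; exact card_nsmul_eq_zero'

theorem p_mem (hc : Nat.card S = p ^ N) : (p : S) ∈ maximalIdeal S := by
  have h := p_pow_smul hc 1
  rw [nsmul_eq_mul, mul_one, Nat.cast_pow] at h
  exact (maximalIdeal.isMaximal S).isPrime.mem_of_pow_mem N (h ▸ zero_mem _)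

theorem exists_coeff_ring (hp : p.Prime) (hc : Nat.card S = p ^ N) :
    ∃ W : Subring S, (∀ a, ∃ w ∈ W, a - w ∈ maximalIdeal S) ∧
      ∀ w ∈ W, w ∈ maximalIdeal S → ∃ y ∈ W, w = p * y := by
  classical
  have : Finite (ResidueField S) := Finite.of_surjective _ (residue_surjective (R := S))
  have := Fintype.ofFinite (ResidueField S)
  have hpm := p_mem hc
  have hchar : CharP (ResidueField S) p := by
    have : Fact p.Prime := ⟨hp⟩
    apply (CharP.charP_iff_prime_eq_zero hp).2
    rw [← map_natCast (residue S), residue_eq_zero_iff]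
    exact hpm
  obtain ⟨r, -, hq⟩ := FiniteField.card (ResidueField S) p
  have step : ∀ (k : ℕ) (a b : S), a - b ∈ maximalIdeal S ^ (k + 1) →
      a ^ p - b ^ p ∈ maximalIdeal S ^ (k + 2) := by
    intro k a b h
    obtain ⟨z, hz⟩ := exists_add_pow_prime_eq hp b (a - b)
    rw [add_sub_cancel] at hz
    have : a ^ p - b ^ p = (a - b) ^ p + (a - b) * p * (b * z) := by rw [hz]; ring
    rw [this]
    apply Ideal.add_mem
    · have h2 := Ideal.pow_mem_pow h p
      rw [← pow_mul] at h2
      exact Ideal.pow_le_pow_right (by have := hp.two_le; nlinarith) h2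
    · exact Ideal.mul_mem_right _ _ (pow_succ (maximalIdeal S) (k + 1) ▸ Ideal.mul_mem_mul h hpm)
  have base : ∀ a : S, a ^ p ^ (r : ℕ) - a ∈ maximalIdeal S := by
    intro a
    rw [← residue_eq_zero_iff, map_sub, map_pow, ← hq, FiniteField.pow_card, sub_self]
  have step2 : ∀ (k : ℕ) (a : S), (a ^ p ^ (r : ℕ)) ^ p ^ k - a ^ p ^ k ∈ maximalIdeal S ^ (k + 1) := by
    intro k a
    induction k with
    | zero => simpa using base a
    | succ k ih => rw [pow_succ p k, pow_mul, pow_mul]; exact step k _ _ ih
  obtain ⟨n, hn⟩ := maximalIdeal_nilpotent S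
  let T : Set S := {x | x ^ p ^ (r : ℕ) = x}
  refine ⟨Subring.closure T, fun a => ?_, ?_⟩
  · refine ⟨a ^ (p ^ (r : ℕ)) ^ n, Subring.subset_closure ?_, ?_⟩
    · have h1 := step2 (r * n) a
      have h2 : maximalIdeal S ^ (r * n + 1) = ⊥ := by
        apply pow_eq_zero_of_le _ hn
        have := r.pos
        nlinarith
      rw [h2, Ideal.mem_bot, sub_eq_zero, pow_mul p] at h1
      change (a ^ (p ^ (r : ℕ)) ^ n) ^ p ^ (r : ℕ) = _
      rw [← pow_mul, mul_comm, pow_mul, h1]
    · rw [← residue_eq_zero_iff, map_sub, map_pow, ← hq, FiniteField.pow_card_pow, sub_self]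
  · have key : ∀ x ∈ Subring.closure T, ∃ y ∈ Subring.closure T, x ^ p ^ (r : ℕ) - x = p * y := by
      intro x hx
      induction hx using Subring.closure_induction with
      | mem x hx => exact ⟨0, zero_mem _, by rw [hx, sub_self, mul_zero]⟩
      | zero => exact ⟨0, zero_mem _, by rw [zero_pow (pow_pos hp.pos _).ne', sub_self, mul_zero]⟩
      | one => exact ⟨0, zero_mem _, by rw [one_pow, sub_self, mul_zero]⟩
      | add x y hx hy ihx ihy =>
        obtain ⟨a, ha, ha2⟩ := ihx
        obtain ⟨b, hb, hb2⟩ := ihy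
        obtain ⟨z, hz⟩ := exists_add_pow_prime_pow_eq hp (⟨x, hx⟩ : Subring.closure T) ⟨y, hy⟩ r
        have hz' := congrArg Subtype.val hz
        push_cast at hz'
        refine ⟨a + b + x * y * z, add_mem (add_mem ha hb) (mul_mem (mul_mem hx hy) z.2), ?_⟩
        rw [hz']
        linear_combination ha2 + hb2
      | neg x hx ihx =>
        obtain ⟨a, ha, ha2⟩ := ihx
        obtain ⟨z, hz⟩ := exists_add_pow_prime_pow_eq hp (⟨x, hx⟩ : Subring.closure T) (-⟨x, hx⟩) r
        have hz' := congrArg Subtype.val hz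
        push_cast at hz'
        rw [add_neg_cancel, zero_pow (pow_pos hp.pos _).ne'] at hz'
        refine ⟨-a + x * x * z, add_mem (neg_mem ha) (mul_mem (mul_mem hx hx) z.2), ?_⟩
        linear_combination -hz' - ha2
      | mul x y hx hy ihx ihy =>
        obtain ⟨a, ha, ha2⟩ := ihx
        obtain ⟨b, hb, hb2⟩ := ihy
        refine ⟨a * y ^ p ^ (r : ℕ) + x * b, add_mem (mul_mem ha (pow_mem hy _)) (mul_mem hx hb), ?_⟩
        rw [mul_pow]
        linear_combination (y ^ p ^ (r : ℕ)) * ha2 + x * hb2
    intro w hw hwm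
    obtain ⟨y, hy, hy2⟩ := key w hw
    obtain ⟨q, hq'⟩ : ∃ q, p ^ (r : ℕ) = q + 2 :=
      ⟨p ^ (r : ℕ) - 2, by have := Nat.one_lt_pow r.pos.ne' hp.one_lt; omega⟩
    have hnil : IsNilpotent ((⟨w, hw⟩ : Subring.closure T) ^ (q + 1)) := by
      refine ⟨n, Subtype.ext ?_⟩
      have := Ideal.pow_mem_pow (Ideal.pow_mem_of_mem _ hwm (q + 1) (Nat.succ_pos q)) n
      rw [hn] at this
      exact Ideal.mem_bot.1 this
    obtain ⟨u, hu⟩ := hnil.isUnit_one_sub.exists_right_inv
    have hu' := congrArg Subtype.val hu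
    push_cast at hu'
    refine ⟨-y * u, mul_mem (neg_mem hy) u.2, ?_⟩
    rw [hq'] at hy2
    linear_combination -w * hu' - u * hy2

theorem local_necessary (hp : p.Prime) (hc : Nat.card S = p ^ N)
    (htame : maximalIdeal S ^ p = ⊥) {f : RingTerm} (hf : VanProper S f)
    (h0 : ∃ v : ℕ → S, f.eval v ≠ 0) :
    maximalIdeal S = Ideal.span {(p : S)} ∨
      ((∃ t : S, maximalIdeal S = Ideal.span {(p : S), t}) ∧
        ∀ k : ℕ, maximalIdeal S ^ (k + 1) = ⊥ → (p : S) ^ k = 0) := by
  obtain ⟨W, hW1, hW2⟩ := exists_coeff_ring hp hc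
  obtain ⟨v, hv⟩ := h0
  choose w hw hw2 using fun i => hW1 (v i)
  have hpm := p_mem hc
  let P : MvPolynomial ℕ S := MvPolynomial.map W.subtype
      (f.eval (fun i => MvPolynomial.C (⟨w i, hw i⟩ : W) + MvPolynomial.X i))
  have hP : ∀ b : ℕ → S, MvPolynomial.eval b P = f.eval (fun i => w i + b i) :=
    fun b => shift_eval W _ f b
  have hcore : ∀ t ∈ maximalIdeal S, ∀ B : Subring S, B ≠ ⊤ → W ≤ B → t ∈ B →
      ∀ α : ℕ →₀ ℕ, MvPolynomial.coeff α P * t ^ α.degree = 0 := by
    intro t ht B hB hWB htB
    apply coeff_mul_pow_eq_zero (N := N) hp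
    · have := Ideal.pow_mem_pow ht p
      rw [htame] at this
      exact Ideal.mem_bot.1 this
    · exact fun α => p_pow_smul hc _
    · intro lam
      rw [hP]
      apply hf B.toNonUnitalSubring
      · intro h
        apply hB
        rw [eq_top_iff]
        intro x _
        have : x ∈ B.toNonUnitalSubring := h ▸ trivial
        exact this
      · intro i
        exact B.add_mem (hWB (hw i)) (B.mul_mem (intCast_mem B _) htB)
  have hfin : (∀ α : ℕ →₀ ℕ, ∀ x ∈ maximalIdeal S ^ α.degree, MvPolynomial.coeff α P * x = 0) →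
      False := by
    intro h
    have := eval_eq_zero_of_coeff _ P h (fun i => v i - w i) hw2
    rw [hP] at this
    exact hv (by simpa using this)
  by_contra hcon
  rw [not_or, not_and_or] at hcon
  obtain ⟨h1, h2 | h2⟩ := hcon
  · push Not at h2
    apply hfin
    intro α x hx
    by_cases hα : α.degree < p
    swap
    · have := Ideal.pow_le_pow_right (not_lt.1 hα) hx
      rw [htame] at this
      rw [Ideal.mem_bot.1 this, mul_zero]
    refine polarize (N := N) hp _ (fun x _ => p_pow_smul hc x) _ _ hα (fun t ht => ?_) x hx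
    let B : Subring S :=
      { carrier := {x | ∃ w ∈ W, ∃ r, x = w + t * r}
        mul_mem' := by
          rintro _ _ ⟨a, ha, r, rfl⟩ ⟨b, hb, s, rfl⟩
          exact ⟨a * b, W.mul_mem ha hb, a * s + r * b + t * r * s, by ring⟩
        one_mem' := ⟨1, W.one_mem, 0, by ring⟩
        add_mem' := by
          rintro _ _ ⟨a, ha, r, rfl⟩ ⟨b, hb, s, rfl⟩
          exact ⟨a + b, W.add_mem ha hb, r + s, by ring⟩
        zero_mem' := ⟨0, W.zero_mem, 0, by ring⟩
        neg_mem' := by
          rintro _ ⟨a, ha, r, rfl⟩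
          exact ⟨-a, W.neg_mem ha, -r, by ring⟩ }
    refine hcore t ht B (fun hB => h2 t ?_) (fun a ha => ⟨a, ha, 0, by ring⟩)
      ⟨0, W.zero_mem, 1, by ring⟩ α
    apply le_antisymm
    · intro y hy
      have : y ∈ B := hB ▸ trivial
      obtain ⟨a, ha, r, rfl⟩ := this
      have ham : a ∈ maximalIdeal S := by
        have := Ideal.sub_mem _ hy (Ideal.mul_mem_right r _ ht)
        rwa [add_sub_cancel_right] at this
      obtain ⟨y, -, rfl⟩ := hW2 a ha ham
      exact Ideal.mem_span_pair.2 ⟨y, r, by ring⟩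
    · rw [Ideal.span_le, Set.insert_subset_iff, Set.singleton_subset_iff]
      exact ⟨hpm, ht⟩
  · push Not at h2
    obtain ⟨k, hk, hpk⟩ := h2
    have hWtop : W ≠ ⊤ := by
      intro hW
      apply h1
      apply le_antisymm
      · intro y hy
        obtain ⟨z, -, rfl⟩ := hW2 y (hW ▸ trivial) hy
        exact Ideal.mem_span_singleton'.2 ⟨z, mul_comm _ _⟩
      · rwa [Ideal.span_le, Set.singleton_subset_iff]
    apply hfin
    intro α x hx
    have h3 := hcore p hpm W hWtop le_rfl (natCast_mem W p) α
    have h4 : MvPolynomial.coeff α P ∈ W := by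
      simp only [P, MvPolynomial.coeff_map]
      exact Subtype.property _
    have h5 : ∀ n : ℕ, (∃ a u, IsUnit u ∧ MvPolynomial.coeff α P = (p : S) ^ a * u) ∨
        ∃ y ∈ W, MvPolynomial.coeff α P = (p : S) ^ n * y := by
      intro n
      induction n with
      | zero => exact Or.inr ⟨_, h4, by simp⟩
      | succ n ih =>
        rcases ih with h | ⟨y, hy, hy2⟩
        · exact Or.inl h
        · by_cases hym : y ∈ maximalIdeal S
          · obtain ⟨z, hz, rfl⟩ := hW2 y hy hym
            exact Or.inr ⟨z, hz, by rw [hy2]; ring⟩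
          · exact Or.inl ⟨n, y, (notMem_maximalIdeal).1 hym, hy2⟩
    rcases h5 N with ⟨a, u, hu, h6⟩ | ⟨y, -, h6⟩
    · rw [h6] at h3 ⊢
      have h7 : (p : S) ^ (a + α.degree) = 0 := by
        rw [mul_right_comm, ← pow_add] at h3
        exact (hu.mul_left_eq_zero).1 h3
      have h8 : k + 1 ≤ a + α.degree := by
        by_contra h9
        exact hpk (pow_eq_zero_of_le (by omega) h7)
      have h9 : (p : S) ^ a * x ∈ maximalIdeal S ^ (k + 1) :=
        Ideal.pow_le_pow_right h8
          (pow_add (maximalIdeal S) a _ ▸ Ideal.mul_mem_mul (Ideal.pow_mem_pow hpm a) hx)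
      rw [hk] at h9
      rw [mul_right_comm, Ideal.mem_bot.1 h9, zero_mul]
    · have := p_pow_smul hc y
      rw [nsmul_eq_mul, Nat.cast_pow] at this
      rw [h6, this, zero_mul]

end Local

end Pool.Agent.MP_c0911c_al

end

section

namespace Pool.Agent.MP_c0911c_al

universe u v

open IsLocalRing

theorem sup_pow_aux {A : Type u} [CommRing A] (J : Ideal A) (a : A) (ha : a ∈ J) (n : ℕ) :
    (Ideal.span {a} ⊔ J ^ 2) ^ n ≤ Ideal.span {a ^ n} ⊔ J ^ (n + 1) := by
  have haJ : Ideal.span {a} ≤ J := (Ideal.span_singleton_le_iff_mem _).2 ha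
  induction n with
  | zero => simp
  | succ n ih =>
    rw [pow_succ]
    refine (Ideal.mul_mono_left ih).trans ?_
    rw [Ideal.sup_mul, Ideal.mul_sup, Ideal.span_singleton_mul_span_singleton, ← pow_succ]
    refine sup_le (sup_le le_sup_left (le_sup_of_le_right ?_)) (le_sup_of_le_right ?_)
    · rw [add_assoc, pow_add J n]
      exact Ideal.mul_mono_left ((Ideal.span_singleton_le_iff_mem _).2 (Ideal.pow_mem_pow ha n))
    · rw [pow_succ J (n + 1)]
      exact Ideal.mul_mono_right (sup_le haJ (Ideal.pow_le_self two_ne_zero))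

theorem local_sufficient {S : Type u} [CommRing S] [Finite S] [IsLocalRing S] {p : ℕ}
    (h : maximalIdeal S = Ideal.span {(p : S)} ∨
      ((∃ t : S, maximalIdeal S = Ideal.span {(p : S), t}) ∧
        ∀ k : ℕ, maximalIdeal S ^ (k + 1) = ⊥ → (p : S) ^ k = 0)) :
    ∃ f : RingTerm, (∀ v : ℕ → S, f.eval v ∈ (maximalIdeal S).annihilator) ∧
      (∃ v : ℕ → S, f.eval v ≠ 0) ∧ VanProper S f := by
  classical
  have : Finite (ResidueField S) := Finite.of_surjective _ (residue_surjective (R := S))
  have := Fintype.ofFinite (ResidueField S)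
  obtain ⟨q, hq⟩ : ∃ q, Fintype.card (ResidueField S) = q + 2 :=
    ⟨Fintype.card (ResidueField S) - 2, by have := Fintype.one_lt_card (α := ResidueField S); omega⟩
  have hpm : (p : S) ∈ maximalIdeal S := by
    rcases h with h | ⟨⟨t, h⟩, -⟩
    · rw [h]; exact Ideal.mem_span_singleton_self _
    · rw [h]; exact Ideal.subset_span (Set.mem_insert _ _)
  let g : ℕ → RingTerm := fun i => .add (powTerm (.var i) (q + 1)) (.neg (.var i))
  have hg : ∀ (v : ℕ → S) i, (g i).eval v = v i ^ (q + 2) - v i := by
    intro v i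
    simp only [g, RingTerm.eval, eval_powTerm, sub_eq_add_neg]
  have hgm : ∀ (v : ℕ → S) i, (g i).eval v ∈ maximalIdeal S := by
    intro v i
    rw [hg, ← residue_eq_zero_iff, map_sub, map_pow, ← hq, FiniteField.pow_card, sub_self]
  let g' : ℕ → RingTerm := fun i => .add (powTerm (.var 0) i) (.neg (.var 0))
  have hg' : ∀ (v : ℕ → S) i, (g' i).eval v = v 0 ^ (i + 1) - v 0 := by
    intro v i
    simp only [g', RingTerm.eval, eval_powTerm, sub_eq_add_neg]
  obtain ⟨L, hL⟩ := maximalIdeal_nilpotent S
  have hex : ∃ n : ℕ, maximalIdeal S ^ n = ⊥ := ⟨L, hL⟩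
  have hN := Nat.find_spec hex
  cases hNe : Nat.find hex with
  | zero =>
    rw [hNe] at hN
    simp at hN
  | succ n =>
    have hmin := Nat.find_min hex (m := n) (by omega)
    rw [hNe] at hN
    have hw : ∃ w : Fin n → S, (∀ i, w i ∈ maximalIdeal S) ∧ ∏ i, w i ≠ 0 := by
      by_contra hc
      push Not at hc
      apply hmin
      rw [eq_bot_iff]
      intro y hy
      have := pow_eq_bot_of_prod (maximalIdeal S) n 1 (fun x hx => by rw [hc x hx, mul_zero]) y hy
      simpa using this
    obtain ⟨w, hw, hw0⟩ := hw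
    have hprod : ∀ v : ℕ → S, ∏ i ∈ Finset.range n, (g (i + 1)).eval v ∈ maximalIdeal S ^ n := by
      intro v
      have := Ideal.prod_mem_prod (s := Finset.range n) (I := fun _ => maximalIdeal S)
        (x := fun i => (g (i + 1)).eval v) (fun i _ => hgm v _)
      rwa [Finset.prod_const, Finset.card_range] at this
    have hunit : ∀ a : S, IsUnit (a * ∏ i ∈ Finset.range q, (a ^ (i + 1 + 1) - a)) ↔
        residue S a ≠ 0 ∧ ∀ i < q, residue S a ^ (i + 1) ≠ 1 := by
      intro a
      rw [← notMem_maximalIdeal, ← residue_eq_zero_iff, map_mul, map_prod, mul_eq_zero,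
        Finset.prod_eq_zero_iff, not_or]
      refine and_congr_right fun ha => ?_
      simp only [Finset.mem_range, map_sub, map_pow, not_exists, not_and]
      refine forall_congr' fun i => imp_congr_right fun _ => not_congr ?_
      rw [sub_eq_zero, pow_succ _ (i + 1)]
      exact mul_eq_right₀ ha
    refine ⟨.mul (powTerm (prodTerm g' q) L) (prodTerm g n), fun v => ?_, ?_, ?_⟩
    · rw [Submodule.mem_annihilator]
      intro x hx
      have := Ideal.mul_mem_mul (hprod v) hx
      rw [← pow_succ, hN, Ideal.mem_bot] at this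
      simp only [RingTerm.eval, eval_prodTerm, smul_eq_mul]
      rw [mul_assoc, mul_assoc, this, mul_zero, mul_zero]
    · obtain ⟨θ, hθ⟩ := IsCyclic.exists_ofOrder_eq_natCard (α := (ResidueField S)ˣ)
      rw [Nat.card_eq_fintype_card, Fintype.card_units, hq] at hθ
      obtain ⟨a, ha⟩ := residue_surjective (θ : ResidueField S)
      have hu : IsUnit (a * ∏ i ∈ Finset.range q, (a ^ (i + 1 + 1) - a)) := by
        rw [hunit, ha]
        refine ⟨θ.ne_zero, fun i hi h1 => ?_⟩
        have h2 : θ ^ (i + 1) = 1 := Units.ext (by simpa using h1)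
        have := Nat.le_of_dvd (Nat.succ_pos i) (orderOf_dvd_of_pow_eq_one h2)
        omega
      refine ⟨fun i => Nat.casesOn i a (fun j => if h : j < n then w ⟨j, h⟩ else 0), ?_⟩
      simp only [RingTerm.eval, eval_prodTerm, eval_powTerm, hg, hg', Nat.rec_zero]
      rw [Finset.prod_range (n := n)]
      simp only [Fin.is_lt, dite_true, Fin.eta]
      have : ∏ i, (w i ^ (q + 2) - w i) = (∏ i, (w i ^ (q + 1) - 1)) * ∏ i, w i := by
        rw [← Finset.prod_mul_distrib]
        exact Finset.prod_congr rfl fun i _ => by ring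
      rw [this]
      have hu2 : IsUnit (∏ i, (w i ^ (q + 1) - 1)) := by
        rw [IsUnit.prod_iff]
        intro i _
        rw [← neg_sub, IsUnit.neg_iff]
        exact isUnit_one_sub_self_of_mem_nonunits _
          (Ideal.pow_mem_of_mem (maximalIdeal S) (hw i) _ (Nat.succ_pos q))
      intro h0
      exact hw0 ((hu2.mul_right_eq_zero).1 (((isUnit_of_mul_isUnit_left hu).mul_right_eq_zero).1
        (((hu.pow _).mul_right_eq_zero).1 h0)))
    · intro B hB v hv
      simp only [RingTerm.eval, eval_prodTerm, eval_powTerm, hg']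
      by_cases hu : IsUnit (v 0 * ∏ i ∈ Finset.range q, (v 0 ^ (i + 1 + 1) - v 0))
      swap
      · have h1 := Ideal.pow_mem_pow ((mem_maximalIdeal _).2 hu) L
        rw [hL] at h1
        rw [pow_succ, Ideal.mem_bot.1 h1, zero_mul, zero_mul]
      have hpow : ∀ k : ℕ, v 0 ^ (k + 1) ∈ B := by
        intro k
        induction k with
        | zero => simpa using hv 0
        | succ k ih => rw [pow_succ]; exact B.mul_mem ih (hv 0)
      have hone : (1 : S) ∈ B := by
        obtain ⟨u, hu'⟩ := isUnit_of_mul_isUnit_left hu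
        have h1 := orderOf_pos u
        have h2 := hpow (orderOf u - 1)
        rwa [Nat.sub_add_cancel h1, ← hu', ← Units.val_pow_eq_pow_val, pow_orderOf_eq_one] at h2
      let B' : Subring S := B.toSubring hone
      have hB' : B' ≠ ⊤ := by
        intro h1
        apply hB
        rw [eq_top_iff]
        intro x _
        have : x ∈ B' := h1 ▸ trivial
        exact this
      obtain ⟨hv0, hord⟩ := (hunit _).1 hu
      have h0 : ∀ a, ∃ b ∈ B', a - b ∈ maximalIdeal S := by
        intro a
        by_cases ha : residue S a = 0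
        · exact ⟨0, B'.zero_mem, by rwa [sub_zero, ← residue_eq_zero_iff]⟩
        have h1 : orderOf (Units.mk0 _ hv0) = Nat.card (ResidueField S)ˣ := by
          have h2 := orderOf_le_card (x := Units.mk0 _ hv0)
          have h3 := orderOf_pos (Units.mk0 _ hv0)
          rw [Nat.card_eq_fintype_card, Fintype.card_units, hq] at h2 ⊢
          by_contra h4
          apply hord (orderOf (Units.mk0 _ hv0) - 1) (by omega)
          rw [Nat.sub_add_cancel h3]
          have := congrArg Units.val (pow_orderOf_eq_one (Units.mk0 _ hv0))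
          rwa [Units.val_pow_eq_pow_val] at this
        have h2 : Subgroup.zpowers (Units.mk0 _ hv0) = ⊤ := by
          rw [← Subgroup.card_eq_iff_eq_top, Nat.card_zpowers, h1]
        have h3 : Units.mk0 _ ha ∈ Submonoid.powers (Units.mk0 _ hv0) := by
          rw [mem_powers_iff_mem_zpowers, h2]; trivial
        obtain ⟨k, hk⟩ := h3
        refine ⟨v 0 ^ k, B'.pow_mem (hv 0) k, ?_⟩
        have := congrArg Units.val hk
        rw [← residue_eq_zero_iff, map_sub, map_pow, sub_eq_zero]
        simpa using this.symm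
      have hpB : (p : S) ∈ B' := natCast_mem B' p
      have hgB : ∀ i, (g i).eval v ∈ B' := by
        intro i
        rw [hg]
        exact B'.sub_mem (B'.pow_mem (hv i) _) (hv i)
      rcases h with h | ⟨⟨t, h⟩, hk⟩
      · exfalso
        apply hB'
        refine subring_eq_top _ ⟨L, hL⟩ B' h0 fun y hy => ?_
        obtain ⟨a, rfl⟩ := Ideal.mem_span_singleton'.1 (h ▸ hy)
        obtain ⟨b, hb, hb2⟩ := h0 a
        refine ⟨b * p, B'.mul_mem hb hpB, Ideal.mul_mem_left _ _ hpm, ?_⟩
        rw [← sub_mul, pow_two]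
        exact Ideal.mul_mem_mul hb2 hpm
      · have htm : t ∈ maximalIdeal S := by
          rw [h]; exact Ideal.subset_span (Set.mem_insert_of_mem _ rfl)
        have hall : ∀ i, (g i).eval v ∈ Ideal.span {(p : S)} ⊔ maximalIdeal S ^ 2 := by
          intro i
          by_contra hs
          apply hB'
          obtain ⟨α, u, hαu⟩ := Ideal.mem_span_pair.1 (h ▸ hgm v i)
          have hu' : IsUnit u := by
            rw [← notMem_maximalIdeal]
            intro hum
            apply hs
            rw [← hαu]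
            exact Submodule.add_mem_sup (Ideal.mul_mem_left _ _ (Ideal.mem_span_singleton_self _))
              (pow_two (maximalIdeal S) ▸ Ideal.mul_mem_mul hum htm)
          obtain ⟨u', hu''⟩ := hu'.exists_left_inv
          refine subring_eq_top _ ⟨L, hL⟩ B' h0 fun y hy => ?_
          obtain ⟨a, c, rfl⟩ := Ideal.mem_span_pair.1 (h ▸ hy)
          obtain ⟨b, hb, hb2⟩ := h0 (a - c * u' * α)
          obtain ⟨d, hd, hd2⟩ := h0 (c * u')
          refine ⟨b * p + d * (g i).eval v, B'.add_mem (B'.mul_mem hb hpB) (B'.mul_mem hd (hgB i)),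
            Ideal.add_mem _ (Ideal.mul_mem_left _ _ hpm) (Ideal.mul_mem_left _ _ (hgm v i)), ?_⟩
          have : a * p + c * t - (b * p + d * (g i).eval v) =
              (a - c * u' * α - b) * p + (c * u' - d) * (g i).eval v := by
            rw [← hαu]
            linear_combination (-c * t) * hu''
          rw [this, pow_two]
          exact Ideal.add_mem _ (Ideal.mul_mem_mul hb2 hpm) (Ideal.mul_mem_mul hd2 (hgm v i))
        have h1 := Ideal.prod_mem_prod (s := Finset.range n)
          (I := fun _ => Ideal.span {(p : S)} ⊔ maximalIdeal S ^ 2)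
          (x := fun i => (g (i + 1)).eval v) (fun i _ => hall _)
        rw [Finset.prod_const, Finset.card_range] at h1
        have h2 := sup_pow_aux _ _ hpm n h1
        rw [hk n hN, hN] at h2
        simp only [Set.singleton_zero, Ideal.span_zero, le_refl, sup_of_le_left,
          Ideal.mem_bot] at h2
        rw [h2, mul_zero, mul_zero]

theorem witness_of_local' {R : Type u} [NonUnitalCommRing R] [Finite R] {S : Type v} [CommRing S]
    [IsLocalRing S] (φ : R ≃+* S)
    (hc : Nat.card (maximalIdeal S).annihilator = Nat.card (ResidueField S)) {f : RingTerm}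
    (hf : ∀ v : ℕ → S, f.eval v ∈ (maximalIdeal S).annihilator) (hw : ∃ v : ℕ → S, f.eval v ≠ 0) :
    Witness R f := by
  have : Finite S := Finite.of_equiv R φ.toEquiv
  obtain ⟨w, hw⟩ := hw
  refine ⟨fun I hI v => ?_, ⟨fun n => φ.symm (w n), ?_⟩⟩
  · obtain ⟨a, ha, ha0⟩ := exists_ne_zero_of_ne_bot hI
    obtain ⟨s, hs0, hs⟩ := exists_mul_mem_ann (a := φ a) (by simpa using ha0)
    have h1 : Ideal.span {s * φ a} = (maximalIdeal S).annihilator := by
      apply SetLike.coe_injective
      apply Set.eq_of_subset_of_ncard_le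
      · exact (Ideal.span_singleton_le_iff_mem _).2 hs
      · rw [← Nat.card_coe_set_eq, ← Nat.card_coe_set_eq]
        exact (hc.trans (card_span_of_ann hs hs0).symm).le
      · exact Set.toFinite _
    have h2 := hf (fun n => φ (v n))
    rw [← eval_map, ← h1, Ideal.mem_span_singleton'] at h2
    obtain ⟨t, ht⟩ := h2
    have : f.eval v = φ.symm (t * s) * a := by
      apply φ.injective
      rw [map_mul, RingEquiv.apply_symm_apply, ← ht, mul_assoc]
    rw [this]
    exact I.mul_mem_left _ _ ha
  · rw [← eval_map]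
    simpa using hw

end Pool.Agent.MP_c0911c_al

end

section

namespace Pool.Agent.MP_c0911c_al

universe u v

open IsLocalRing

/-- The image of `R` in its unitization. -/
def augIdeal (R : Type u) [NonUnitalCommRing R] : Ideal (Unitization ℤ R) :=
  RingHom.ker (Unitization.fstHom ℤ R)

theorem mem_augIdeal {R : Type u} [NonUnitalCommRing R] {x : Unitization ℤ R} :
    x ∈ augIdeal R ↔ ∃ r : R, x = r := by
  constructor
  · intro h
    have h1 : x.fst = 0 := h
    refine ⟨x.snd, ?_⟩
    conv_lhs => rw [← Unitization.inl_fst_add_inr_snd_eq x, h1]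
    simp
  · rintro ⟨r, rfl⟩
    simp [augIdeal, RingHom.mem_ker]

theorem inr_eval {R : Type u} [NonUnitalCommRing R] (v : ℕ → R) (f : RingTerm) :
    ((f.eval v : R) : Unitization ℤ R) = f.eval (fun i => (v i : Unitization ℤ R)) :=
  eval_map (Unitization.inrNonUnitalAlgHom ℤ R) v f

theorem eval_zero {A : Type u} [NonUnitalRing A] (f : RingTerm) :
    f.eval (fun _ => (0 : A)) = 0 := by
  induction f with
  | var n => rfl
  | zero => rfl
  | add s t hs ht => simp [RingTerm.eval, hs, ht]
  | neg s hs => simp [RingTerm.eval, hs]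
  | mul s t hs ht => simp [RingTerm.eval, hs]

theorem exists_mvPoly {A : Type u} [CommRing A] (f : RingTerm) :
    ∃ P : MvPolynomial ℕ A, ∀ b : ℕ → A, MvPolynomial.eval b P = f.eval b := by
  refine ⟨f.eval (fun i => MvPolynomial.X i), fun b => ?_⟩
  rw [eval_map]
  simp

theorem nil_necessary {R : Type u} [NonUnitalCommRing R] {p N : ℕ} (hp : p.Prime)
    (hc : Nat.card R = p ^ N) (htame : augIdeal R ^ p = ⊥) {f : RingTerm} (hf : VanProper R f)
    (h0 : ∃ v : ℕ → R, f.eval v ≠ 0) : ∃ x : R, NonUnitalSubring.closure {x} = ⊤ := by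
  by_contra hcon
  push Not at hcon
  obtain ⟨v, hv⟩ := h0
  have htors : ∀ x ∈ augIdeal R, p ^ N • x = 0 := by
    intro x hx
    obtain ⟨r, rfl⟩ := mem_augIdeal.1 hx
    rw [← Unitization.inr_smul, ← hc, card_nsmul_eq_zero', Unitization.inr_zero]
  obtain ⟨P, hP⟩ := exists_mvPoly (A := Unitization ℤ R) f
  have hP0 : MvPolynomial.coeff 0 P = 0 := by
    rw [← MvPolynomial.constantCoeff_eq, ← MvPolynomial.eval_zero', hP, eval_zero]
  have key : ∀ α : ℕ →₀ ℕ, ∀ x ∈ augIdeal R ^ α.degree, MvPolynomial.coeff α P * x = 0 := by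
    intro α x hx
    by_cases hα : α.degree < p
    swap
    · have := Ideal.pow_le_pow_right (not_lt.1 hα) hx
      rw [htame] at this
      rw [Ideal.mem_bot.1 this, mul_zero]
    refine polarize (N := N) hp _ htors _ _ hα (fun t ht => ?_) x hx
    apply coeff_mul_pow_eq_zero (N := N) hp
    · have := Ideal.pow_mem_pow ht p
      rw [htame] at this
      exact Ideal.mem_bot.1 this
    · intro β
      by_cases hβ : β = 0
      · rw [hβ, hP0, zero_mul, smul_zero]
      · apply htors
        exact Ideal.mul_mem_left _ _ (Ideal.pow_mem_of_mem _ ht _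
          (Nat.pos_of_ne_zero (fun h => hβ ((Finsupp.degree_eq_zero_iff β).1 h))))
    · intro lam
      obtain ⟨r, rfl⟩ := mem_augIdeal.1 ht
      have h1 := hf _ (hcon r) (fun i => lam i • r)
        (fun i => by
          have h0 : r ∈ NonUnitalSubring.closure {r} :=
            NonUnitalSubring.subset_closure (Set.mem_singleton r)
          exact zsmul_mem h0 (lam i))
      have h2 := inr_eval (fun i => lam i • r) f
      rw [h1, Unitization.inr_zero] at h2
      have h3 : (fun i => ((lam i • r : R) : Unitization ℤ R)) =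
          fun i => (lam i : Unitization ℤ R) * (r : Unitization ℤ R) := by
        funext i
        rw [Unitization.inr_smul, zsmul_eq_mul]
      rw [h3] at h2
      exact (hP _).trans h2.symm
  have := eval_eq_zero_of_coeff _ P key (fun i => (v i : Unitization ℤ R))
    (fun i => mem_augIdeal.2 ⟨_, rfl⟩)
  have h5 := (inr_eval v f).trans ((hP _).symm.trans this)
  exact hv (Unitization.inr_injective (R := ℤ) (by rw [h5, Unitization.inr_zero]))

theorem proper_subring_nil {R : Type u} [NonUnitalCommRing R] {p N : ℕ} (hp : p.Prime)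
    (hc : Nat.card R = p ^ N) (hnil : IsNilpotent (augIdeal R)) {x : R}
    (hx : NonUnitalSubring.closure {x} = ⊤) (S : NonUnitalSubring R) (hS : S ≠ ⊤) (s : R)
    (hs : s ∈ S) : ∃ a r : R, s = p • a + x * r := by
  have hform : ∀ y : R, ∃ (n : ℤ) (r : R), y = n • x + x * r := by
    intro y
    have hy : y ∈ NonUnitalSubring.closure {x} := hx ▸ trivial
    induction hy using NonUnitalSubring.closure_induction with
    | mem y hy => exact ⟨1, 0, by rw [Set.mem_singleton_iff.1 hy]; simp⟩
    | zero => exact ⟨0, 0, by simp⟩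
    | add y z _ _ hy hz =>
      obtain ⟨n, r, rfl⟩ := hy
      obtain ⟨m, t, rfl⟩ := hz
      exact ⟨n + m, r + t, by rw [add_smul, mul_add]; abel⟩
    | neg y _ hy =>
      obtain ⟨n, r, rfl⟩ := hy
      exact ⟨-n, -r, by rw [neg_smul, mul_neg]; abel⟩
    | mul y z _ _ hy hz =>
      obtain ⟨n, r, rfl⟩ := hy
      exact ⟨0, n • z + r * z, by
        rw [zero_smul, zero_add, add_mul, mul_add, smul_mul_assoc, mul_smul_comm, mul_assoc]⟩
  obtain ⟨n, r, hnr⟩ := hform s
  by_cases hpn : (p : ℤ) ∣ n
  · obtain ⟨m, rfl⟩ := hpn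
    exact ⟨m • x, r, by rw [hnr, mul_smul, natCast_zsmul]⟩
  exfalso
  have hcop : IsCoprime ((p : ℤ) ^ N) n :=
    ((Int.prime_iff_natAbs_prime.2 (by simpa using hp)).coprime_iff_not_dvd.2 hpn).pow_left
  obtain ⟨a, b, hab⟩ := hcop
  have hx0 : ((p : ℤ) ^ N) • x = 0 := by
    rw [← Nat.cast_pow, natCast_zsmul, ← hc, card_nsmul_eq_zero']
  have hs' : x + x * (b • r) ∈ S := by
    have : x + x * (b • r) = b • s := by
      rw [hnr, smul_add, ← mul_smul, mul_smul_comm]
      congr 1
      calc x = (a * (p : ℤ) ^ N + b * n) • x := by rw [hab, one_smul]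
        _ = (b * n) • x := by rw [add_smul, mul_smul, hx0, smul_zero, zero_add]
    rw [this]
    exact zsmul_mem hs b
  let B : Subring (Unitization ℤ R) :=
    { carrier := {u | u.snd ∈ S}
      mul_mem' := by
        intro u w hu hw
        simp only [Set.mem_ofPred_eq, Unitization.snd_mul] at *
        exact S.add_mem (S.add_mem (zsmul_mem hw _) (zsmul_mem hu _)) (S.mul_mem hu hw)
      one_mem' := S.zero_mem
      add_mem' := fun hu hw => S.add_mem hu hw
      zero_mem' := S.zero_mem
      neg_mem' := fun hu => S.neg_mem hu }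
  have hB : B = ⊤ := by
    refine subring_eq_top (A := Unitization ℤ R) (augIdeal R) hnil B (fun u => ⟨Unitization.inl u.fst, by exact S.zero_mem, ?_⟩) ?_
    · refine mem_augIdeal.2 ⟨u.snd, ?_⟩
      rw [sub_eq_iff_eq_add', Unitization.inl_fst_add_inr_snd_eq]
    · intro y hy
      obtain ⟨y, rfl⟩ := mem_augIdeal.1 hy
      obtain ⟨m, t, rfl⟩ := hform y
      refine ⟨((m • (x + x * (b • r)) : R) : Unitization ℤ R), zsmul_mem hs' m,
        mem_augIdeal.2 ⟨_, rfl⟩, ?_⟩
      have : ((m • x + x * t : R) : Unitization ℤ R) - ((m • (x + x * (b • r)) : R) : Unitization ℤ R)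
          = (x : Unitization ℤ R) * ((t - m • b • r : R) : Unitization ℤ R) := by
        rw [← Unitization.inr_mul, ← Unitization.inr_sub]
        congr 1
        rw [smul_add, mul_sub, mul_smul_comm m]
        abel
      rw [this, pow_two]
      exact Ideal.mul_mem_mul (mem_augIdeal.2 ⟨_, rfl⟩) (mem_augIdeal.2 ⟨_, rfl⟩)
  apply hS
  rw [eq_top_iff]
  intro y _
  have : (y : Unitization ℤ R) ∈ B := hB ▸ trivial
  exact this

theorem foldl_add_eq {R : Type u} [NonUnitalCommRing R] (a b : R) (l : List R) :
    l.foldl (· * ·) (a + b) = l.foldl (· * ·) a + l.foldl (· * ·) b := by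
  induction l generalizing a b with
  | nil => rfl
  | cons c l ih => simp only [List.foldl_cons, add_mul, ih]

theorem foldl_smul_eq {R : Type u} [NonUnitalCommRing R] (n : ℕ) (a : R) (l : List R) :
    l.foldl (· * ·) (n • a) = n • l.foldl (· * ·) a := by
  induction l generalizing a with
  | nil => rfl
  | cons c l ih => simp only [List.foldl_cons, smul_mul_assoc, ih]

theorem nil_sufficient {R : Type u} [NonUnitalCommRing R] [Finite R] {p N : ℕ} (hp : p.Prime)
    (hcR : Nat.card R = p ^ N)
    (hn : ∃ n : ℕ, ∀ (a : R) (l : List R), l.length = n → l.foldl (· * ·) a = 0)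
    (hcyc : IsAddCyclic (annihilatorSubgroup R))
    (hpp : IsPrimePow (Nat.card (annihilatorSubgroup R))) :
    ∃ f, Witness R f ∧ ∀ v : ℕ → R, (∃ a x r : R, v 0 = p • a + x * r) → f.eval v = 0 := by
  classical
  obtain ⟨k, -, hc⟩ := (Nat.dvd_prime_pow hp).1
    (hcR ▸ AddSubgroup.card_addSubgroup_dvd_card (annihilatorSubgroup R))
  have hN := Nat.find_spec hn
  have hnt : Nontrivial (annihilatorSubgroup R) := by
    rw [← Finite.one_lt_card_iff_nontrivial]
    exact hpp.one_lt
  cases hNe : Nat.find hn with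
  | zero =>
    exfalso
    rw [hNe] at hN
    obtain ⟨x, hx⟩ := exists_ne (0 : annihilatorSubgroup R)
    exact hx (Subtype.ext (hN x [] rfl))
  | succ n =>
    have hmin := Nat.find_min hn (m := n) (by omega)
    rw [hNe] at hN
    push Not at hmin
    obtain ⟨a, l, hl, hal⟩ := hmin
    have hval : ∀ v : ℕ → R, (prodTerm .var n).eval v ∈ annihilatorSubgroup R := by
      intro v x
      have := hN (v 0) ((List.ofFn fun i : Fin n => v (i + 1)) ++ [x]) (by simp)
      rw [eval_prodTerm_var]
      simpa using this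
    have hex : ∃ e : ℕ, ∀ v : ℕ → R, p ^ e • (prodTerm .var n).eval v = 0 := by
      refine ⟨N, fun v => ?_⟩
      rw [← hcR, card_nsmul_eq_zero']
    have hE := Nat.find_spec hex
    cases hEe : Nat.find hex with
    | zero =>
      exfalso
      rw [hEe] at hE
      obtain ⟨v, hv⟩ := exists_eval_prodTerm_var a l
      have := hE v
      rw [← hl, hv] at this
      exact hal (by simpa using this)
    | succ e =>
      have hmin := Nat.find_min hex (m := e) (by omega)
      rw [hEe] at hE
      push Not at hmin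
      refine ⟨nsmulTerm (prodTerm .var n) (p ^ e), ⟨fun I hI v => ?_, ?_⟩, ?_⟩
      · obtain ⟨x, hx, hx0⟩ := exists_ne_zero_of_ne_bot hI
        obtain ⟨b, hb, hb0, hba⟩ := exists_mem_ann hn hx hx0
        have h1 := cyclic_pgroup_aux (G := annihilatorSubgroup R) hp hc
          (b := ⟨b, hba⟩) (c := p ^ e • ⟨_, hval v⟩) (fun h => hb0 (congrArg Subtype.val h))
          (by
            apply Subtype.ext
            have := hE v
            rw [pow_succ', mul_smul] at this
            exact this)
        obtain ⟨z, hz⟩ := AddSubgroup.mem_zmultiples_iff.1 h1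
        have hz' : z • b = p ^ e • (prodTerm .var n).eval v := congrArg Subtype.val hz
        rw [eval_nsmulTerm, ← hz']
        exact I.zsmul_mem z hb
      · obtain ⟨v, hv⟩ := hmin
        exact ⟨v, by rwa [eval_nsmulTerm]⟩
      · rintro v ⟨a, x, r, hv⟩
        have h1 := hE (Function.update v 0 a)
        rw [eval_prodTerm_var] at h1
        simp only [Function.update_self, ne_eq, Nat.add_eq_zero_iff, one_ne_zero, and_false,
          not_false_eq_true, Function.update_of_ne] at h1
        have h2 := hN x (r :: List.ofFn fun i : Fin n => v (i + 1)) (by simp)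
        rw [List.foldl_cons] at h2
        rw [eval_nsmulTerm, eval_prodTerm_var, hv, foldl_add_eq, h2, add_zero, foldl_smul_eq,
          ← mul_smul, ← pow_succ, h1]

theorem isSectionCritical_tame (R : Type u) [NonUnitalCommRing R] [Finite R] (p N : ℕ)
    (hp : p.Prime) (hcard : Nat.card R = p ^ N)
    (htame : ∀ x : Fin p → R, (∀ i, IsNilpotent (x i : Unitization ℤ R)) →
      ∏ i, (x i : Unitization ℤ R) = 0) :
    IsSectionCritical R ↔
      (∃ (S : Type u) (_ : CommRing S) (_ : IsLocalRing S), Nonempty (R ≃+* S) ∧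
        Nat.card (IsLocalRing.maximalIdeal S).annihilator =
          Nat.card (IsLocalRing.ResidueField S) ∧
        (IsLocalRing.maximalIdeal S = Ideal.span {(p : S)} ∨
          ((∃ t : S, IsLocalRing.maximalIdeal S = Ideal.span {(p : S), t}) ∧
            ∀ k : ℕ, IsLocalRing.maximalIdeal S ^ (k + 1) = ⊥ → (p : S) ^ k = 0))) ∨
      ((∀ x : R, IsNilpotent (x : Unitization ℤ R)) ∧
        IsAddCyclic (annihilatorSubgroup R) ∧
        IsPrimePow (Nat.card (annihilatorSubgroup R)) ∧
        ∃ x : R, NonUnitalSubring.closure {x} = ⊤) := by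
  have haug : (∀ x : R, IsNilpotent (x : Unitization ℤ R)) → augIdeal R ^ p = ⊥ := by
    intro h
    rw [eq_bot_iff]
    intro y hy
    have := pow_eq_bot_of_prod (augIdeal R) p 1 (fun x hx => by
      choose r hr using fun i => mem_augIdeal.1 (hx i)
      simp only [hr, htame r (fun i => h _), mul_zero]) y hy
    simpa using this
  rw [isSectionCritical_iff]
  constructor
  · rintro ⟨f, ⟨h1, v, hv⟩, hf⟩
    have hM : Mono R := ⟨_, hv, fun I hI => h1 I hI v⟩
    by_cases h : ∀ e : R, e * e = e → e = 0
    · have hnil : ∀ x : R, IsNilpotent (x : Unitization ℤ R) := by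
        intro x
        obtain ⟨m, hm, hm2⟩ := exists_idem x
        have : ∃ k : ℕ, (m : Unitization ℤ R) = (x : Unitization ℤ R) ^ k := by
          clear hm2
          induction hm using Subsemigroup.closure_induction with
          | mem y hy => exact ⟨1, by rw [Set.mem_singleton_iff.1 hy, pow_one]⟩
          | mul y z _ _ hy hz =>
            obtain ⟨i, hi⟩ := hy
            obtain ⟨j, hj⟩ := hz
            exact ⟨i + j, by rw [Unitization.inr_mul, hi, hj, pow_add]⟩
        obtain ⟨k, hk⟩ := this
        exact ⟨k, by rw [← hk, h m hm2, Unitization.inr_zero]⟩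
      obtain ⟨h2, h3⟩ := nilpotent_struct hM (nilpotent_of_no_idem h)
      exact Or.inr ⟨hnil, h2, h3, nil_necessary hp hcard (haug hnil) hf ⟨v, hv⟩⟩
    · push Not at h
      obtain ⟨e, he, he0⟩ := h
      obtain ⟨S, _, _, ⟨φ⟩, hc⟩ := local_struct hM he he0
      have : Finite S := Finite.of_equiv R φ.toEquiv
      refine Or.inl ⟨S, _, _, ⟨φ⟩, hc, local_necessary (N := N) hp ?_ ?_ (hf.map φ) ?_⟩
      · rw [← hcard]; exact (Nat.card_congr φ.toEquiv).symm
      · obtain ⟨n, rfl⟩ : ∃ n, p = n + 1 := ⟨p - 1, by have := hp.pos; omega⟩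
        rw [eq_bot_iff]
        intro y hy
        have := pow_eq_bot_of_prod (maximalIdeal S) (n + 1) 1 (fun x hx => by
          have h2 := htame (fun i => φ.symm (x i)) (fun i => by
            obtain ⟨L, hL⟩ := maximalIdeal_nilpotent S
            have h3 := Ideal.pow_mem_pow (hx i) L
            rw [hL] at h3
            have h4 : nprod L (fun _ => φ.symm (x i)) = 0 := by
              apply φ.injective
              rw [map_nprod, map_zero]
              simp [pow_succ, Ideal.mem_bot.1 h3]
            refine ⟨L + 1, ?_⟩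
            have h5 := inr_nprod L (fun _ => φ.symm (x i))
            rw [h4] at h5
            simpa using h5.symm)
          rw [← inr_nprod] at h2
          have h3 : nprod n (fun i => φ.symm (x i)) = 0 :=
            Unitization.inr_injective (R := ℤ) (by rw [h2, Unitization.inr_zero])
          have h4 := congrArg φ h3
          rw [map_nprod, map_zero] at h4
          simpa using h4) y hy
        simpa using this
      · exact ⟨fun i => φ (v i), by rw [← eval_map]; simpa using hv⟩
  · rintro (⟨S, _, _, ⟨φ⟩, hc, h⟩ | ⟨h1, h2, h3, x, hx⟩)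
    · have : Finite S := Finite.of_equiv R φ.toEquiv
      obtain ⟨f, hf1, hf2, hf3⟩ := local_sufficient h
      exact ⟨f, witness_of_local' φ hc hf1 hf2, hf3.map φ.symm⟩
    · have hn := nilpotent_of_no_idem (R := R) (fun e he => by
        have h4 : IsIdempotentElem (e : Unitization ℤ R) := by
          rw [IsIdempotentElem, ← Unitization.inr_mul, he]
        exact Unitization.inr_injective (R := ℤ)
          (by
            obtain ⟨k, hk⟩ := h1 e
            have h5 := IsIdempotentElem.pow_succ_eq (M := Unitization ℤ R) k h4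
            rw [pow_succ, hk, zero_mul] at h5
            rw [Unitization.inr_zero, ← h5]))
      obtain ⟨f, hf1, hf2⟩ := nil_sufficient hp hcard hn h2 h3
      refine ⟨f, hf1, fun S hS v hv => hf2 v ?_⟩
      obtain ⟨a, r, h⟩ := proper_subring_nil hp hcard ⟨p, haug h1⟩ hx S hS _ (hv 0)
      exact ⟨a, x, r, h⟩

end Pool.Agent.MP_c0911c_al

end
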